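import Mathlib

/-!
# Odd numbers that are never the gap from a power of two to the next odd semiprime

There is an arithmetic progression of positive odd numbers `k`, no term of which is a value of
`a`: for every `n ≥ 0` the number `2 ^ n + k` has at least three prime factors (counted with
multiplicity), since it is properly divisible by one of 34 products of two primes. The residues
come from a covering system modulo 720 in which every class is covered at least twice.
-/

set_option autoImplicit false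

namespace Pool.Agent.Results.MP_c49196_nt.NotEveryOdd

/-- A semiprime is a product of two primes, not necessarily distinct. -/
def IsSemiprime (s : ℕ) : Prop := ∃ p q : ℕ, p.Prime ∧ q.Prime ∧ s = p * q

/-- `a n` is the distance from `2 ^ n` to the smallest odd semiprime exceeding it. -/
noncomputable def a (n : ℕ) : ℕ := sInf {s : ℕ | 2 ^ n < s ∧ Odd s ∧ IsSemiprime s} - 2 ^ n

/-- The first term of the progression. -/
def k₀ : ℕ := 48691248640678271903118437591048756053335647

/-- The difference of the progression. -/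
def M : ℕ := 57452692305308876166068504189206387414720650

/-- The pairs of primes whose products are used. -/
def Ds : List (ℕ × ℕ) :=
  [(3, 3), (3, 7), (5, 7), (3, 19), (3, 73), (7, 17), (13, 17), (5, 5), (5, 11), (5, 31), (5, 41),
   (3, 37), (3, 109), (7, 97), (7, 257), (13, 257), (13, 673), (241, 257), (5, 151), (5, 331),
   (17, 73), (17, 433), (73, 241), (241, 577), (11, 17), (17, 31), (17, 61), (17, 331),
   (17, 631), (11, 241), (31, 241), (61, 241), (241, 331), (241, 631)]

lemma ds_prime : ∀ d ∈ Ds, d.1.Prime ∧ d.2.Prime := by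
  intro d hd
  simp only [Ds, List.mem_cons, List.not_mem_nil, or_false] at hd
  rcases hd with h | h | h | h | h | h | h | h | h | h | h | h | h | h | h | h | h | h | h | h |
    h | h | h | h | h | h | h | h | h | h | h | h | h | h <;> subst h <;> norm_num

lemma ds_dvd : ∀ d ∈ Ds, d.1 * d.2 ∣ M ∧ 2 ^ 720 % (d.1 * d.2) = 1 ∧ d.1 * d.2 < k₀ := by
  decide +kernel

lemma cover : ∀ r < 720, ∃ d ∈ Ds, (2 ^ r + k₀) % (d.1 * d.2) = 0 := by
  decide +kernel

/-- Every `2 ^ n + k` is divisible by one of the products. -/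
lemma exists_dvd (t n : ℕ) : ∃ d ∈ Ds, d.1 * d.2 ∣ 2 ^ n + (k₀ + M * t) := by
  obtain ⟨d, hd, h⟩ := cover (n % 720) (Nat.mod_lt _ (by norm_num))
  refine ⟨d, hd, ?_⟩
  obtain ⟨h1, h2, -⟩ := ds_dvd d hd
  have e : 2 ^ n = (2 ^ 720) ^ (n / 720) * 2 ^ (n % 720) := by
    rw [← pow_mul, ← pow_add, Nat.div_add_mod]
  have c1 : 2 ^ 720 ≡ 1 [MOD d.1 * d.2] := by
    have hne : 1 % (d.1 * d.2) = 1 := by
      obtain ⟨p1, p2⟩ := ds_prime d hd
      exact Nat.mod_eq_of_lt (by nlinarith [p1.two_le, p2.two_le])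
    unfold Nat.ModEq
    rw [h2, hne]
  have c2 : 2 ^ n ≡ 2 ^ (n % 720) [MOD d.1 * d.2] := by
    rw [e]
    simpa using (c1.pow (n / 720)).mul_right (2 ^ (n % 720))
  have c3 : 2 ^ n + k₀ ≡ 0 [MOD d.1 * d.2] := by
    refine (c2.add_right k₀).trans ?_
    unfold Nat.ModEq
    rw [h, Nat.zero_mod]
  have c4 : d.1 * d.2 ∣ 2 ^ n + k₀ := (Nat.modEq_zero_iff_dvd).1 c3
  rw [← add_assoc]
  exact dvd_add c4 (dvd_mul_of_dvd_left h1 t)

lemma three_le (t n : ℕ) : 3 ≤ ArithmeticFunction.cardFactors (2 ^ n + (k₀ + M * t)) := by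
  obtain ⟨d, hd, w, hw⟩ := exists_dvd t n
  obtain ⟨-, -, hlt⟩ := ds_dvd d hd
  obtain ⟨p1, p2⟩ := ds_prime d hd
  have hw1 : 1 < w := by
    by_contra hcon
    have h1 : d.1 * d.2 * w ≤ d.1 * d.2 * 1 := Nat.mul_le_mul_left _ (not_lt.1 hcon)
    have h2 : k₀ ≤ 2 ^ n + (k₀ + M * t) := by
      have := Nat.zero_le (M * t)
      have := Nat.zero_le (2 ^ n)
      omega
    omega
  rw [hw, ArithmeticFunction.cardFactors_mul (Nat.mul_ne_zero p1.ne_zero p2.ne_zero) (by omega),
    ArithmeticFunction.cardFactors_mul p1.ne_zero p2.ne_zero,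
    ArithmeticFunction.cardFactors_apply_prime p1, ArithmeticFunction.cardFactors_apply_prime p2]
  have : 0 < ArithmeticFunction.cardFactors w := by
    rw [ArithmeticFunction.cardFactors_apply]
    have hne : w.primeFactorsList ≠ [] := by
      intro h
      rw [Nat.primeFactorsList_eq_nil] at h
      omega
    exact List.length_pos_iff.2 hne
  omega

lemma nonempty (n : ℕ) : {s : ℕ | 2 ^ n < s ∧ Odd s ∧ IsSemiprime s}.Nonempty := by
  obtain ⟨p, hp1, hp2⟩ := Nat.exists_infinite_primes (2 ^ n + 3)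
  refine ⟨3 * p, ?_, ?_, 3, p, Nat.prime_three, hp2, rfl⟩
  · have h : 2 ^ n < 3 * p := by
      generalize 2 ^ n = x at hp1 ⊢
      omega
    exact h
  · exact (by decide : Odd 3).mul (hp2.odd_of_ne_two (by generalize 2 ^ n = x at hp1; omega))

/-- For every `n` there is an odd semiprime above `2 ^ n` (so `a n` is the distance to the least
one), and for every term `k` of the progression `k₀, k₀ + M, k₀ + 2 M, …` of positive odd numbers
and every `n ≥ 0`, the number `2 ^ n + k` has at least three prime factors counted with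
multiplicity and `a n ≠ k`. -/
theorem result :
    (∀ n : ℕ, {s : ℕ | 2 ^ n < s ∧ Odd s ∧ IsSemiprime s}.Nonempty) ∧
    0 < M ∧ ∀ t : ℕ, Odd (k₀ + M * t) ∧ 0 < k₀ + M * t ∧
      ∀ n : ℕ, 3 ≤ ArithmeticFunction.cardFactors (2 ^ n + (k₀ + M * t)) ∧
        a n ≠ k₀ + M * t := by
  have hM : Even M := by unfold M; decide
  have hk : Odd k₀ := by unfold k₀; decide
  have hk0 : 0 < k₀ := by unfold k₀; norm_num
  have hM0 : 0 < M := by unfold M; norm_num
  refine ⟨nonempty, hM0, fun t => ⟨hk.add_even (hM.mul_right t), by omega, fun n =>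
    ⟨three_le t n, fun h => ?_⟩⟩⟩
  obtain ⟨h1, -, p, q, hp, hq, h2⟩ := Nat.sInf_mem (nonempty n)
  have h3 := three_le t n
  have h4 : 2 ^ n + (k₀ + M * t) = p * q := by
    rw [← h, ← h2]
    unfold a
    omega
  rw [h4, ArithmeticFunction.cardFactors_mul hp.ne_zero hq.ne_zero,
    ArithmeticFunction.cardFactors_apply_prime hp,
    ArithmeticFunction.cardFactors_apply_prime hq] at h3
  omega

end Pool.Agent.Results.MP_c49196_nt.NotEveryOdd
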